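import Mathlib

/-!
# Logarithmic derivatives of products of few polynomials in characteristic `p`
-/

set_option autoImplicit false

open Polynomial Finset

namespace Pool.Agent.K9h94.KV

/-- the product -/
noncomputable def QQ {p : ℕ} (F : ℕ → (ZMod p)[X]) (A : Finset ℕ) : (ZMod p)[X] := ∏ a ∈ A, F a

/-- numerator of the logarithmic derivative -/
noncomputable def LL {p : ℕ} (F : ℕ → (ZMod p)[X]) (A : Finset ℕ) (r : ℕ → ZMod p) :
    (ZMod p)[X] :=
  ∑ a ∈ A, C (r a) * (derivative (F a) * ∏ b ∈ A.erase a, F b)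

variable {p : ℕ} [hp : Fact p.Prime]

lemma LL_insert (F : ℕ → (ZMod p)[X]) {a : ℕ} {s : Finset ℕ} (ha : a ∉ s) (r : ℕ → ZMod p) :
    LL F (insert a s) r = C (r a) * (derivative (F a) * QQ F s) + F a * LL F s r := by
  unfold LL QQ
  rw [Finset.sum_insert ha, Finset.erase_insert ha, Finset.mul_sum]
  have h1 : ∀ b ∈ s, C (r b) * (derivative (F b) * ∏ x ∈ (insert a s).erase b, F x) =
      F a * (C (r b) * (derivative (F b) * ∏ x ∈ s.erase b, F x)) := by
    intro b hb
    have hab : a ≠ b := by rintro rfl; exact ha hb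
    rw [Finset.erase_insert_of_ne hab,
      Finset.prod_insert (fun h => ha (Finset.mem_of_mem_erase h))]
    ring
  rw [Finset.sum_congr rfl h1]

lemma QQ_insert (F : ℕ → (ZMod p)[X]) {a : ℕ} {s : Finset ℕ} (ha : a ∉ s) :
    QQ F (insert a s) = F a * QQ F s := by
  unfold QQ
  rw [Finset.prod_insert ha]

lemma logder (F : ℕ → (ZMod p)[X]) (A : Finset ℕ) (r : ℕ → ℕ) :
    derivative (∏ a ∈ A, F a ^ r a) * QQ F A =
      (∏ a ∈ A, F a ^ r a) * LL F A (fun a => (r a : ZMod p)) := by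
  induction A using Finset.induction_on with
  | empty => simp [LL]
  | insert a s ha ih =>
    rw [Finset.prod_insert ha, LL_insert F ha, QQ_insert F ha, derivative_mul]
    have h1 : derivative (F a ^ r a) * F a =
        C ((r a : ℕ) : ZMod p) * F a ^ r a * derivative (F a) := by
      rw [derivative_pow]
      rcases Nat.eq_zero_or_pos (r a) with h0 | h0
      · rw [h0]; simp
      · obtain ⟨k, hk⟩ : ∃ k, r a = k + 1 := ⟨r a - 1, by omega⟩
        rw [hk, Nat.add_sub_cancel, pow_succ]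
        ring
    linear_combination (QQ F s * ∏ x ∈ s, F x ^ r x) * h1 + (F a ^ r a * F a) * ih

lemma QQ_natDegree (F : ℕ → (ZMod p)[X]) (A : Finset ℕ) :
    (QQ F A).natDegree ≤ ∑ a ∈ A, (F a).natDegree :=
  natDegree_prod_le _ _

lemma X_deriv_natDegree (f : (ZMod p)[X]) : (X * derivative f).natDegree ≤ f.natDegree := by
  by_cases h : derivative f = 0
  · rw [h, mul_zero, natDegree_zero]; exact Nat.zero_le _
  · have h1 : f.natDegree ≠ 0 := by
      intro h0
      apply h
      rw [Polynomial.eq_C_of_natDegree_eq_zero h0, derivative_C]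
    have h2 := natDegree_derivative_lt h1
    refine natDegree_mul_le.trans ?_
    have := natDegree_X_le (R := ZMod p)
    omega

lemma G_natDegree (F : ℕ → (ZMod p)[X]) (A : Finset ℕ) (r : ℕ → ZMod p) (j : ZMod p) :
    (X * LL F A r - C j * QQ F A).natDegree ≤ ∑ a ∈ A, (F a).natDegree := by
  refine (natDegree_sub_le _ _).trans (max_le ?_ ?_)
  · unfold LL
    rw [Finset.mul_sum]
    refine natDegree_sum_le_of_forall_le _ _ fun a ha => ?_
    have h1 : X * (C (r a) * (derivative (F a) * ∏ b ∈ A.erase a, F b)) =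
      C (r a) * ((X * derivative (F a)) * ∏ b ∈ A.erase a, F b) := by ring
    rw [h1]
    refine (natDegree_C_mul_le _ _).trans (natDegree_mul_le.trans ?_)
    rw [← Finset.add_sum_erase A (fun a => (F a).natDegree) ha]
    exact add_le_add (X_deriv_natDegree _) (QQ_natDegree F (A.erase a))
  · exact (natDegree_C_mul_le _ _).trans (QQ_natDegree F A)

/-- the main statement about polynomials: `ω a` is a simple root of `F a` which is not a root of
the other polynomials -/
theorem poly_main (F : ℕ → (ZMod p)[X]) (A : Finset ℕ) {E : Type} [Field E] [Algebra (ZMod p) E]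
    (ω : ℕ → E) (h0 : ∀ a ∈ A, ω a ≠ 0) (h1 : ∀ a ∈ A, aeval (ω a) (F a) = 0)
    (h2 : ∀ a ∈ A, aeval (ω a) (derivative (F a)) ≠ 0)
    (h3 : ∀ a ∈ A, ∀ b ∈ A, b ≠ a → aeval (ω a) (F b) ≠ 0)
    (hF1 : ∀ a ∈ A, (F a).eval 1 ≠ 0) (r : ℕ → ℕ) (e M : ℕ)
    (f : (ZMod p)[X]) (hM : ∑ a ∈ A, (F a).natDegree + 2 ≤ M)
    (h : (X - 1) ^ M ∣ (∏ a ∈ A, F a ^ r a) - X ^ e * f ^ p) :
    ∀ a ∈ A, p ∣ r a := by
  set W := ∏ a ∈ A, F a ^ r a with hW
  have e1 : (X - 1 : (ZMod p)[X]) ^ (M - 1) ∣ derivative (W - X ^ e * f ^ p) :=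
    pow_sub_one_dvd_derivative_of_pow_dvd h
  have e2 : X * derivative (X ^ e * f ^ p) = C (e : ZMod p) * (X ^ e * f ^ p) := by
    have hcp : (C (p : ZMod p) : (ZMod p)[X]) = 0 := by
      rw [CharP.cast_eq_zero, C_0]
    rw [derivative_mul, derivative_pow f, hcp, derivative_X_pow]
    rcases Nat.eq_zero_or_pos e with h0 | h0
    · rw [h0]; simp
    · obtain ⟨k, rfl⟩ : ∃ k, e = k + 1 := ⟨e - 1, by omega⟩
      rw [Nat.add_sub_cancel, pow_succ]
      ring
  have e3 : (X - 1 : (ZMod p)[X]) ^ (M - 1) ∣ X * derivative W - C (e : ZMod p) * W := by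
    have h4 : X * derivative W - C (e : ZMod p) * W =
        X * derivative (W - X ^ e * f ^ p) - C (e : ZMod p) * (W - X ^ e * f ^ p) := by
      rw [derivative_sub, mul_sub, e2]; ring
    rw [h4]
    exact dvd_sub (e1.mul_left _) (((pow_dvd_pow _ (Nat.sub_le _ _)).trans h).mul_left _)
  have e4 : (X - 1 : (ZMod p)[X]) ^ (M - 1) ∣
      W * (X * LL F A (fun a => (r a : ZMod p)) - C (e : ZMod p) * QQ F A) := by
    have h6 := e3.mul_right (QQ F A)
    have h7 := logder F A r
    rw [← hW] at h7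
    have h8 : W * (X * LL F A (fun a => (r a : ZMod p)) - C (e : ZMod p) * QQ F A) =
        (X * derivative W - C (e : ZMod p) * W) * QQ F A := by
      linear_combination -X * h7
    rw [h8]; exact h6
  have e5 : IsCoprime ((X - 1 : (ZMod p)[X]) ^ (M - 1)) W := by
    refine IsCoprime.pow_left ?_
    have hirr : Irreducible (X - C (1 : ZMod p)) := irreducible_X_sub_C 1
    rw [C_1] at hirr
    rw [hirr.coprime_iff_not_dvd]
    intro hd
    rw [← C_1, dvd_iff_isRoot, IsRoot.def, hW, eval_prod, Finset.prod_eq_zero_iff] at hd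
    obtain ⟨a, ha, h10⟩ := hd
    rw [eval_pow] at h10
    exact hF1 a ha (eq_zero_of_pow_eq_zero h10)
  have e6 := e5.dvd_of_dvd_mul_left e4
  have e7 : X * LL F A (fun a => (r a : ZMod p)) - C (e : ZMod p) * QQ F A = 0 := by
    refine eq_zero_of_dvd_of_natDegree_lt e6 ?_
    have h12 : ((X - 1 : (ZMod p)[X]) ^ (M - 1)).natDegree = M - 1 := by
      rw [← C_1, natDegree_pow, natDegree_X_sub_C, mul_one]
    rw [h12]
    exact lt_of_le_of_lt (G_natDegree F A _ _) (by omega)
  intro a ha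
  have e8 := congrArg (aeval (ω a)) e7
  unfold LL QQ at e8
  simp only [map_sub, map_mul, map_sum, map_prod, aeval_X, aeval_C, map_zero] at e8
  rw [Finset.prod_eq_zero ha (h1 a ha), mul_zero, sub_zero,
    Finset.sum_eq_single_of_mem a ha (fun b hb hba => by
      rw [Finset.prod_eq_zero (Finset.mem_erase.2 ⟨Ne.symm hba, ha⟩) (h1 a ha), mul_zero,
        mul_zero])] at e8
  have e9 : algebraMap (ZMod p) E ((r a : ℕ) : ZMod p) = 0 := by
    rcases mul_eq_zero.1 e8 with h4 | h4
    · exact absurd h4 (h0 a ha)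
    · rcases mul_eq_zero.1 h4 with h5 | h5
      · exact h5
      · exfalso
        refine mul_ne_zero (h2 a ha) (Finset.prod_ne_zero_iff.2 fun b hb => ?_) h5
        rw [Finset.mem_erase] at hb
        exact h3 a ha b hb.2 hb.1
  have e10 : ((r a : ℕ) : ZMod p) = 0 :=
    (algebraMap (ZMod p) E).injective (by rw [e9, map_zero])
  exact (ZMod.natCast_eq_zero_iff _ p).1 e10

/-! ### Cyclotomic polynomials -/

lemma cyc_root {d : ℕ} (hd : ¬ p ∣ d) :
    ∃ ω : AlgebraicClosure (ZMod p), IsPrimitiveRoot ω d := by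
  have hd0 : 0 < d := by
    rcases Nat.eq_zero_or_pos d with rfl | h
    · exact absurd (dvd_zero p) hd
    · exact h
  have hdF : (d : AlgebraicClosure (ZMod p)) ≠ 0 := by
    intro h0
    apply hd
    rw [← ZMod.natCast_eq_zero_iff]
    apply (algebraMap (ZMod p) (AlgebraicClosure (ZMod p))).injective
    rw [map_natCast, map_zero, h0]
  have : NeZero (d : AlgebraicClosure (ZMod p)) := ⟨hdF⟩
  have hdeg : (cyclotomic d (AlgebraicClosure (ZMod p))).degree ≠ 0 := by
    rw [degree_cyclotomic]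
    have := Nat.totient_pos.2 hd0
    exact_mod_cast this.ne'
  obtain ⟨ω, hω⟩ := IsAlgClosed.exists_root (cyclotomic d (AlgebraicClosure (ZMod p))) hdeg
  exact ⟨ω, (isRoot_cyclotomic_iff).1 hω⟩

lemma cyc_aeval {d b : ℕ} (hb : ¬ p ∣ b) {ω : AlgebraicClosure (ZMod p)}
    (hω : IsPrimitiveRoot ω d) :
    aeval ω (cyclotomic b (ZMod p)) = 0 ↔ b = d := by
  have hbF : (b : AlgebraicClosure (ZMod p)) ≠ 0 := by
    intro h0
    apply hb
    rw [← ZMod.natCast_eq_zero_iff]
    apply (algebraMap (ZMod p) (AlgebraicClosure (ZMod p))).injective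
    rw [map_natCast, map_zero, h0]
  have : NeZero (b : AlgebraicClosure (ZMod p)) := ⟨hbF⟩
  rw [← eval_map_algebraMap, map_cyclotomic, ← IsRoot.def, isRoot_cyclotomic_iff]
  constructor
  · intro h; exact h.unique hω
  · rintro rfl; exact hω

lemma cyc_deriv {d : ℕ} (hd : ¬ p ∣ d) {ω : AlgebraicClosure (ZMod p)}
    (hω : IsPrimitiveRoot ω d) : aeval ω (derivative (cyclotomic d (ZMod p))) ≠ 0 := by
  have hd0 : 0 < d := by
    rcases Nat.eq_zero_or_pos d with rfl | h
    · exact absurd (dvd_zero p) hd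
    · exact h
  have hdF : (d : AlgebraicClosure (ZMod p)) ≠ 0 := by
    intro h0
    apply hd
    rw [← ZMod.natCast_eq_zero_iff]
    apply (algebraMap (ZMod p) (AlgebraicClosure (ZMod p))).injective
    rw [map_natCast, map_zero, h0]
  obtain ⟨R, hR⟩ : cyclotomic d (ZMod p) ∣ X ^ d - 1 := cyclotomic.dvd_X_pow_sub_one d (ZMod p)
  intro h0
  have h1 := congrArg (aeval ω) (congrArg derivative hR)
  rw [derivative_mul] at h1
  simp only [map_add, map_mul, map_sub, derivative_one, sub_zero, derivative_X_pow, map_pow,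
    aeval_X, map_natCast] at h1
  rw [h0, (cyc_aeval hd hω).2 rfl, zero_mul, zero_mul, zero_add] at h1
  exact mul_ne_zero hdF (pow_ne_zero _ (hω.ne_zero hd0.ne')) h1

lemma cyc_one {d : ℕ} (hd : ¬ p ∣ d) (hd2 : 2 ≤ d) : (cyclotomic d (ZMod p)).eval 1 ≠ 0 := by
  intro h0
  have h1 := prod_cyclotomic_eq_geom_sum (show 0 < d by omega) (ZMod p)
  have h2 := congrArg (eval (1 : ZMod p)) h1
  rw [eval_prod, Finset.prod_eq_zero (i := d) (by simp; omega) h0] at h2
  rw [eval_finsetSum] at h2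
  simp at h2
  exact hd ((ZMod.natCast_eq_zero_iff d p).1 h2.symm)

/-- the statement for cyclotomic polynomials -/
theorem cyc_main (A : Finset ℕ) (hA : ∀ d ∈ A, ¬ p ∣ d ∧ 2 ≤ d) (r : ℕ → ℕ) (e M : ℕ)
    (f : (ZMod p)[X]) (hM : ∑ d ∈ A, d.totient + 2 ≤ M)
    (h : (X - 1) ^ M ∣ (∏ d ∈ A, cyclotomic d (ZMod p) ^ r d) - X ^ e * f ^ p) :
    ∀ d ∈ A, p ∣ r d := by
  classical
  have hex : ∀ d : ℕ, ∃ ω : AlgebraicClosure (ZMod p), ¬ p ∣ d → IsPrimitiveRoot ω d := by
    intro d
    by_cases hd : p ∣ d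
    · exact ⟨0, fun h => absurd hd h⟩
    · obtain ⟨ω, hω⟩ := cyc_root hd
      exact ⟨ω, fun _ => hω⟩
  choose ω hω using hex
  refine poly_main (fun d => cyclotomic d (ZMod p)) A ω ?_ ?_ ?_ ?_ ?_ r e M f ?_ h
  · intro a ha
    have := (hA a ha).2
    exact (hω a (hA a ha).1).ne_zero (by omega)
  · intro a ha
    exact (cyc_aeval (hA a ha).1 (hω a (hA a ha).1)).2 rfl
  · intro a ha
    exact cyc_deriv (hA a ha).1 (hω a (hA a ha).1)
  · intro a ha b hb hba h0
    exact hba ((cyc_aeval (hA b hb).1 (hω a (hA a ha).1)).1 h0)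
  · intro a ha
    exact cyc_one (hA a ha).1 (hA a ha).2
  · simpa [natDegree_cyclotomic] using hM

end Pool.Agent.K9h94.KV
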