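import Mathlib
import Pool.Agent.K9h94.KV.Poly

/-!
# Products of cyclotomic units of small degree modulo `p`-th powers
-/

set_option autoImplicit false

open Polynomial Finset

namespace Pool.Agent.K9h94.KV

/-- `w` is a root of unity -/
def Tor {K : Type} [Field K] (w : K) : Prop := ∃ m : ℕ, 0 < m ∧ w ^ m = 1

variable {K : Type} [Field K]

lemma Tor.ne_zero {w : K} (h : Tor w) : w ≠ 0 := by
  obtain ⟨m, hm, h1⟩ := h
  rintro rfl
  rw [zero_pow hm.ne'] at h1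
  exact zero_ne_one h1

lemma Tor.isOfFinOrder {w : K} (h : Tor w) : IsOfFinOrder w := by
  obtain ⟨m, hm, h1⟩ := h
  exact isOfFinOrder_iff_pow_eq_one.2 ⟨m, hm, h1⟩

section
variable {p : ℕ} [hp : Fact p.Prime] {n : ℕ}

lemma prim_pow {ζ : K} (hζ : IsPrimitiveRoot ζ (p ^ (n + 1))) {a : ℕ} (ha : ¬ p ∣ a) :
    IsPrimitiveRoot (ζ ^ a) (p ^ (n + 1)) := by
  refine hζ.pow_of_coprime a ?_
  exact Nat.Coprime.pow_right _ (((Nat.Prime.coprime_iff_not_dvd hp.out).2 ha).symm)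

lemma one_sub_ne {ζ : K} (hζ : IsPrimitiveRoot ζ (p ^ (n + 1))) {a : ℕ} (ha : ¬ p ∣ a) :
    (1 : K) - ζ ^ a ≠ 0 := by
  have h1 : IsPrimitiveRoot (ζ ^ a) (p ^ (n + 1)) := prim_pow hζ ha
  have h2 := h1.ne_one (Nat.one_lt_pow (Nat.succ_ne_zero n) hp.out.one_lt)
  exact sub_ne_zero.2 (Ne.symm h2)

/-- `(1 - ζ^a)/(1 - ζ)` is the product of the `Φ_d(ζ)` -/
lemma one_sub_eq (ζ : K) {a : ℕ} (ha : 0 < a) :
    (1 : K) - ζ ^ a = (1 - ζ) * ∏ d ∈ a.divisors.erase 1, aeval ζ (cyclotomic d ℤ) := by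
  have h1 := prod_cyclotomic_eq_geom_sum ha ℤ
  have h2 := geom_sum_mul (X : ℤ[X]) a
  rw [← h1] at h2
  have h3 := congrArg (aeval ζ) h2
  simp only [map_mul, map_prod, map_sub, map_pow, aeval_X, map_one] at h3
  linear_combination h3

lemma cyc_ne {ζ : K} (hζ : IsPrimitiveRoot ζ (p ^ (n + 1))) {d : ℕ} (hd : ¬ p ∣ d)
    (hd2 : 2 ≤ d) : aeval ζ (cyclotomic d ℤ) ≠ 0 := by
  intro h0
  have h1 := one_sub_eq ζ (show 0 < d by omega)
  rw [Finset.prod_eq_zero (i := d) (by simp; omega) h0, mul_zero] at h1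
  exact one_sub_ne hζ hd h1

/-- the inverse of `Φ_d(ζ)` is an algebraic integer -/
lemma cyc_inv_int {ζ : K} (hζ : IsPrimitiveRoot ζ (p ^ (n + 1))) {d : ℕ} (hd : ¬ p ∣ d)
    (hd2 : 2 ≤ d) : IsIntegral ℤ (aeval ζ (cyclotomic d ℤ))⁻¹ := by
  have hpn : 1 < p ^ (n + 1) := Nat.one_lt_pow (Nat.succ_ne_zero n) hp.out.one_lt
  have hint : IsIntegral ℤ ζ := hζ.isIntegral (by omega)
  have hall : ∀ P : ℤ[X], IsIntegral ℤ (aeval ζ P) := by
    intro P
    have e1 : aeval ζ P = ((aeval (⟨ζ, hint⟩ : integralClosure ℤ K) P : integralClosure ℤ K) : K) := by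
      rw [← Subalgebra.aeval_coe]
    rw [e1]
    exact (aeval (⟨ζ, hint⟩ : integralClosure ℤ K) P).2
  -- `1 - ζ` is a multiple of `1 - ζ^d`
  have hcop : d.Coprime (p ^ (n + 1)) :=
    Nat.Coprime.pow_right _ (((Nat.Prime.coprime_iff_not_dvd hp.out).2 hd).symm)
  obtain ⟨m, -, hm⟩ := Nat.exists_mul_mod_eq_one_of_coprime hcop hpn
  have h1 : ζ ^ (d * m) = ζ := by
    rw [← Nat.div_add_mod (d * m) (p ^ (n + 1)), hm, pow_add, pow_mul, hζ.pow_eq_one, one_pow,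
      one_mul, pow_one]
  have h2 : (1 : K) - ζ = (1 - ζ ^ d) * aeval ζ (∑ i ∈ range m, (X ^ d) ^ i : ℤ[X]) := by
    have h3 := congrArg (aeval ζ) (geom_sum_mul (X ^ d : ℤ[X]) m)
    simp only [map_mul, map_sub, map_pow, aeval_X, map_one, map_sum] at h3
    rw [← pow_mul, h1] at h3
    simp only [map_sum, map_pow, aeval_X]
    linear_combination h3
  have h3 := one_sub_eq ζ (show 0 < d by omega)
  have hmem : d ∈ d.divisors.erase 1 := by simp; omega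
  rw [← Finset.mul_prod_erase _ _ hmem] at h3
  have h4 : (1 : K) - ζ ≠ 0 := by
    have := one_sub_ne hζ (a := 1) (fun h => hp.out.one_lt.ne' (Nat.dvd_one.1 h))
    rwa [pow_one] at this
  have h5 : (aeval ζ (cyclotomic d ℤ))⁻¹ =
      (∏ x ∈ (d.divisors.erase 1).erase d, aeval ζ (cyclotomic x ℤ)) *
        aeval ζ (∑ i ∈ range m, (X ^ d) ^ i : ℤ[X]) := by
    symm
    apply eq_inv_of_mul_eq_one_left
    have h6 : (1 - ζ) * ((∏ x ∈ (d.divisors.erase 1).erase d, aeval ζ (cyclotomic x ℤ)) *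
        aeval ζ (∑ i ∈ range m, (X ^ d) ^ i : ℤ[X]) * aeval ζ (cyclotomic d ℤ)) = (1 - ζ) * 1 := by
      rw [mul_one]
      conv_rhs => rw [h2, h3]
      ring
    exact mul_left_cancel₀ h4 h6
  rw [h5]
  refine IsIntegral.mul ?_ (hall _)
  exact IsIntegral.prod _ fun x _ => hall _

end

variable {p : ℕ} [hp : Fact p.Prime] {n : ℕ} [CharZero K] [IsCyclotomicExtension {p ^ (n + 1)} ℚ K]

/-- The exponent of `1 - ζ` in a `p`-th power is divisible by `p`. -/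
theorem exp_dvd (hp2 : p ≠ 2) {ζ : K} (hζ : IsPrimitiveRoot ζ (p ^ (n + 1))) (D : Finset ℕ)
    (hD : ∀ d ∈ D, ¬ p ∣ d ∧ 2 ≤ d) (v : ℕ → ℕ) (s : ℕ) (w y : K) (hw : Tor w)
    (h : (1 - ζ) ^ s * ∏ d ∈ D, aeval ζ (cyclotomic d ℤ) ^ v d = w * y ^ p) : p ∣ s := by
  classical
  have : NumberField K := IsCyclotomicExtension.numberField {p ^ (n + 1)} ℚ K
  have hpn : 1 < p ^ (n + 1) := Nat.one_lt_pow (Nat.succ_ne_zero n) hp.out.one_lt
  have hint : IsIntegral ℤ ζ := hζ.isIntegral (by omega)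
  have hall : ∀ P : ℤ[X], IsIntegral ℤ (aeval ζ P) := by
    intro P
    have e1 : aeval ζ P = ((aeval (⟨ζ, hint⟩ : integralClosure ℤ K) P : integralClosure ℤ K) : K) := by
      rw [← Subalgebra.aeval_coe]
    rw [e1]
    exact (aeval (⟨ζ, hint⟩ : integralClosure ℤ K) P).2
  have hN0 : ∀ x : K, x ≠ 0 → Algebra.norm ℚ x ≠ 0 := fun x hx => by
    rwa [ne_eq, Algebra.norm_eq_zero_iff]
  have htor : ∀ z : K, Tor z → padicValRat p (Algebra.norm ℚ z) = 0 := by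
    intro z hz
    obtain ⟨m, hm, h1⟩ := hz
    have h2 := congrArg (fun x => padicValRat p (Algebra.norm ℚ x)) h1
    simp only [map_pow, map_one] at h2
    rw [padicValRat.pow] at h2
    simp only [padicValRat.one] at h2
    rcases mul_eq_zero.1 h2 with h3 | h3
    · exact absurd h3 (by exact_mod_cast hm.ne')
    · exact h3
  have hpos : ∀ x : K, IsIntegral ℤ x → 0 ≤ padicValRat p (Algebra.norm ℚ x) := by
    intro x hx
    have h1 : IsIntegral ℤ (Algebra.norm ℚ x) := Algebra.isIntegral_norm ℚ hx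
    obtain ⟨z, hz⟩ := IsIntegrallyClosed.isIntegral_iff.1 h1
    rw [← hz, eq_intCast, padicValRat.of_int]
    exact_mod_cast Nat.zero_le _
  have hunit : ∀ x : K, x ≠ 0 → IsIntegral ℤ x → IsIntegral ℤ x⁻¹ →
      padicValRat p (Algebra.norm ℚ x) = 0 := by
    intro x hx0 h1 h2
    have h3 := hpos x h1
    have h4 := hpos x⁻¹ h2
    have h5 : padicValRat p (Algebra.norm ℚ (x * x⁻¹)) = 0 := by
      rw [mul_inv_cancel₀ hx0, map_one, padicValRat.one]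
    rw [map_mul, padicValRat.mul (hN0 _ hx0) (hN0 _ (inv_ne_zero hx0))] at h5
    linarith
  have h1ζ : (1 : K) - ζ ≠ 0 := by
    have := one_sub_ne hζ (a := 1) (fun h => hp.out.one_lt.ne' (Nat.dvd_one.1 h))
    rwa [pow_one] at this
  have hone : padicValRat p (Algebra.norm ℚ (1 - ζ)) = 1 := by
    have h2 := hζ.norm_sub_one_of_prime_ne_two (K := ℚ)
      (Polynomial.cyclotomic.irreducible_rat (pow_pos hp.out.pos _)) hp2
    have h3 : (1 : K) - ζ = -1 * (ζ - 1) := by ring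
    rw [h3, map_mul, h2, padicValRat.mul (hN0 _ (neg_ne_zero.2 one_ne_zero))
      (by exact_mod_cast hp.out.ne_zero), htor (-1) ⟨2, two_pos, by norm_num⟩, zero_add]
    exact padicValRat.self hp.out.one_lt
  have hP0 : ∏ d ∈ D, aeval ζ (cyclotomic d ℤ) ^ v d ≠ 0 :=
    Finset.prod_ne_zero_iff.2 fun d hd => pow_ne_zero _ (cyc_ne hζ (hD d hd).1 (hD d hd).2)
  have hy : y ≠ 0 := by
    rintro rfl
    rw [zero_pow hp.out.ne_zero, mul_zero] at h
    exact mul_ne_zero (pow_ne_zero _ h1ζ) hP0 h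
  have hPu : padicValRat p (Algebra.norm ℚ (∏ d ∈ D, aeval ζ (cyclotomic d ℤ) ^ v d)) = 0 := by
    refine hunit _ hP0 (IsIntegral.prod _ fun d _ => (hall _).pow _) ?_
    rw [← Finset.prod_inv_distrib]
    refine IsIntegral.prod _ fun d hd => ?_
    rw [← inv_pow]
    exact (cyc_inv_int hζ (hD d hd).1 (hD d hd).2).pow _
  have h5 := congrArg (fun x => padicValRat p (Algebra.norm ℚ x)) h
  simp only [map_mul (Algebra.norm ℚ), map_pow (Algebra.norm ℚ)] at h5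
  rw [← map_pow (Algebra.norm ℚ) (1 - ζ), padicValRat.mul (hN0 _ (pow_ne_zero _ h1ζ)) (hN0 _ hP0),
    hPu, map_pow, padicValRat.pow, hone, padicValRat.mul (hN0 _ hw.ne_zero)
    (pow_ne_zero _ (hN0 _ hy)), htor w hw, padicValRat.pow] at h5
  have h6 : ((p : ℕ) : ℤ) ∣ ((s : ℕ) : ℤ) := ⟨padicValRat p (Algebra.norm ℚ y), by linarith⟩
  exact_mod_cast h6

lemma cyclo_mod (p n : ℕ) [hp : Fact p.Prime] :
    Polynomial.cyclotomic (p ^ (n + 1)) (ZMod p) =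
      (Polynomial.X - 1) ^ (p ^ (n + 1) - p ^ n) := by
  have h := Polynomial.cyclotomic_mul_prime_pow_eq (ZMod p) (p := p) (m := 1)
    (by intro h; exact hp.out.one_lt.ne' (Nat.dvd_one.1 h)) (k := n + 1) (Nat.succ_pos n)
  rw [mul_one, Polynomial.cyclotomic_one, Nat.add_sub_cancel] at h
  exact h

/-- the passage to polynomials modulo `p` -/
theorem to_poly (hp2 : p ≠ 2) {ζ : K} (hζ : IsPrimitiveRoot ζ (p ^ (n + 1))) (P : ℤ[X])
    (w y : K) (hw : Tor w) (h : aeval ζ P = w * y ^ p) :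
    ∃ (e : ℕ) (f : (ZMod p)[X]), (X - 1) ^ (p ^ n * (p - 1)) ∣
      P.map (Int.castRingHom (ZMod p)) - X ^ e * f ^ p := by
  have hpn : 1 < p ^ (n + 1) := Nat.one_lt_pow (Nat.succ_ne_zero n) hp.out.one_lt
  have hpn0 : 0 < p ^ (n + 1) := by omega
  have hpodd : Odd p := hp.out.odd_of_ne_two hp2
  have hζ0 : ζ ≠ 0 := hζ.ne_zero hpn0.ne'
  have hint : IsIntegral ℤ ζ := hζ.isIntegral hpn0
  -- the root of unity
  have : NeZero (p ^ (n + 1)) := ⟨hpn0.ne'⟩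
  have : NumberField K := IsCyclotomicExtension.numberField {p ^ (n + 1)} ℚ K
  obtain ⟨e, he⟩ := hζ.exists_neg_pow_of_isOfFinOrder (hpodd.pow) hw.isOfFinOrder
  set y3 : K := (-1) ^ e * y with hy3
  have hneg : (((-1 : K) ^ e)) ^ p = (-1) ^ e := by
    rw [← pow_mul, mul_comm, pow_mul, hpodd.neg_one_pow]
  have hW : aeval ζ P = ζ ^ e * y3 ^ p := by
    rw [h, he, hy3, mul_pow, hneg, neg_pow ζ e]
    ring
  have hWint : IsIntegral ℤ (aeval ζ P) := by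
    have e1 : aeval ζ P = ((aeval (⟨ζ, hint⟩ : integralClosure ℤ K) P :
          integralClosure ℤ K) : K) := by
      rw [← Subalgebra.aeval_coe]
    rw [e1]
    exact (aeval (⟨ζ, hint⟩ : integralClosure ℤ K) P).2
  have hyi : IsIntegral ℤ y3 := by
    refine IsIntegral.of_pow hp.out.pos ?_
    have e2 : y3 ^ p = ζ ^ ((p ^ (n + 1) - 1) * e) * aeval ζ P := by
      rw [hW, ← mul_assoc, ← pow_add]
      have e3 : (p ^ (n + 1) - 1) * e + e = p ^ (n + 1) * e := by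
        obtain ⟨m, hm⟩ : ∃ m, p ^ (n + 1) = m + 1 := ⟨p ^ (n + 1) - 1, by omega⟩
        rw [hm, Nat.add_sub_cancel]; ring
      rw [e3, pow_mul, hζ.pow_eq_one, one_pow, one_mul]
    rw [e2]
    exact (hint.pow _).mul hWint
  have hcl := IsCyclotomicExtension.Rat.isIntegralClosure_adjoin_singleton_of_prime_pow hζ
  obtain ⟨z, hz⟩ := hcl.isIntegral_iff.1 hyi
  have hz2 : y3 ∈ Algebra.adjoin ℤ ({ζ} : Set K) := by rw [← hz]; exact z.2
  rw [Algebra.adjoin_singleton_eq_range_aeval] at hz2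
  obtain ⟨f, hf'⟩ := hz2
  replace hf' : Polynomial.aeval ζ f = y3 := hf'
  have h4 : Polynomial.aeval ζ (P - X ^ e * f ^ p) = 0 := by
    rw [map_sub, map_mul, map_pow, map_pow, hW, hf', aeval_X, sub_self]
  have h5 := minpoly.isIntegrallyClosed_dvd hint h4
  rw [← Polynomial.cyclotomic_eq_minpoly hζ hpn0] at h5
  have h6 := Polynomial.map_dvd (Int.castRingHom (ZMod p)) h5
  have h7 : p ^ (n + 1) - p ^ n = p ^ n * (p - 1) := by
    rw [pow_succ, Nat.mul_sub, mul_one]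
  rw [Polynomial.map_cyclotomic, Polynomial.map_sub, Polynomial.map_mul, Polynomial.map_pow,
    Polynomial.map_pow, Polynomial.map_X, cyclo_mod, h7] at h6
  exact ⟨e, _, h6⟩

/-- for exponents which are natural numbers -/
theorem cyc_nat (hp2 : p ≠ 2) {ζ : K} (hζ : IsPrimitiveRoot ζ (p ^ (n + 1))) (D : Finset ℕ)
    (hD : ∀ d ∈ D, ¬ p ∣ d ∧ 2 ≤ d) (hsum : ∑ d ∈ D, d.totient + 2 ≤ p ^ n * (p - 1))
    (r : ℕ → ℕ) (s : ℕ) (w y : K) (hw : Tor w)
    (h : (1 - ζ) ^ s * ∏ d ∈ D, aeval ζ (cyclotomic d ℤ) ^ r d = w * y ^ p) :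
    p ∣ s ∧ ∀ d ∈ D, p ∣ r d := by
  have h1 := exp_dvd hp2 hζ D hD r s w y hw h
  refine ⟨h1, ?_⟩
  obtain ⟨t, rfl⟩ := h1
  have h1ζ : (1 : K) - ζ ≠ 0 := by
    have := one_sub_ne hζ (a := 1) (fun h => hp.out.one_lt.ne' (Nat.dvd_one.1 h))
    rwa [pow_one] at this
  have h2 : aeval ζ (∏ d ∈ D, cyclotomic d ℤ ^ r d) = w * (y * ((1 - ζ) ^ t)⁻¹) ^ p := by
    rw [mul_pow, ← mul_assoc, ← h, map_prod, inv_pow, ← pow_mul, mul_comm t p]
    have h3 : (1 - ζ) ^ (p * t) ≠ 0 := pow_ne_zero _ h1ζ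
    simp only [map_pow]
    field_simp
  obtain ⟨e, f, h3⟩ := to_poly hp2 hζ _ w _ hw h2
  have h4 : (∏ d ∈ D, cyclotomic d ℤ ^ r d).map (Int.castRingHom (ZMod p)) =
      ∏ d ∈ D, cyclotomic d (ZMod p) ^ r d := by
    rw [Polynomial.map_prod]
    exact Finset.prod_congr rfl fun a _ => by rw [Polynomial.map_pow, map_cyclotomic]
  rw [h4] at h3
  exact cyc_main D hD r e _ f hsum h3

/-- MAIN THEOREM -/
theorem cyc_int (hp2 : p ≠ 2) {ζ : K} (hζ : IsPrimitiveRoot ζ (p ^ (n + 1))) (D : Finset ℕ)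
    (hD : ∀ d ∈ D, ¬ p ∣ d ∧ 2 ≤ d) (hsum : ∑ d ∈ D, d.totient + 2 ≤ p ^ n * (p - 1))
    (c : ℕ → ℤ) (s : ℤ) (w y : K) (hw : Tor w)
    (h : (1 - ζ) ^ s * ∏ d ∈ D, aeval ζ (cyclotomic d ℤ) ^ c d = w * y ^ p) :
    (p : ℤ) ∣ s ∧ ∀ d ∈ D, (p : ℤ) ∣ c d := by
  have hp0 : (p : ℤ) ≠ 0 := by exact_mod_cast hp.out.ne_zero
  have h1ζ : (1 : K) - ζ ≠ 0 := by
    have := one_sub_ne hζ (a := 1) (fun h => hp.out.one_lt.ne' (Nat.dvd_one.1 h))
    rwa [pow_one] at this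
  have key : ∀ (x : K) (m : ℤ), x ≠ 0 → x ^ ((m % p).toNat) = x ^ m * (x ^ (-(m / p))) ^ p := by
    intro x m hx
    rw [← zpow_natCast x ((m % p).toNat), ← zpow_natCast (x ^ (-(m / p))) p,
      ← zpow_mul, ← zpow_add₀ hx, Int.toNat_of_nonneg (Int.emod_nonneg _ hp0)]
    congr 1
    have := Int.emod_add_mul_ediv m p
    linarith
  have h2 : (1 - ζ) ^ ((s % p).toNat) *
      ∏ d ∈ D, aeval ζ (cyclotomic d ℤ) ^ ((c d % p).toNat) =
      w * (y * ((1 - ζ) ^ (-(s / p)) *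
        ∏ d ∈ D, aeval ζ (cyclotomic d ℤ) ^ (-(c d / p)))) ^ p := by
    rw [mul_pow, ← mul_assoc, ← h, mul_pow, ← Finset.prod_pow, key _ _ h1ζ]
    have h3 : ∏ d ∈ D, aeval ζ (cyclotomic d ℤ) ^ ((c d % p).toNat) =
        (∏ d ∈ D, aeval ζ (cyclotomic d ℤ) ^ c d) *
          ∏ d ∈ D, (aeval ζ (cyclotomic d ℤ) ^ (-(c d / p))) ^ p := by
      rw [← Finset.prod_mul_distrib]
      exact Finset.prod_congr rfl fun d hd => key _ _ (cyc_ne hζ (hD d hd).1 (hD d hd).2)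
    rw [h3]; ring
  obtain ⟨h3, h4⟩ := cyc_nat hp2 hζ D hD hsum (fun d => (c d % p).toNat) ((s % p).toNat) w _ hw h2
  have fin : ∀ m : ℤ, p ∣ (m % p).toNat → (p : ℤ) ∣ m := by
    intro m hm
    have h5 := Int.emod_nonneg m hp0
    have h6 : (p : ℤ) ∣ m % p := by
      have h7 : ((m % p).toNat : ℤ) = m % p := Int.toNat_of_nonneg h5
      rw [← h7]
      exact_mod_cast hm
    exact (Int.dvd_iff_emod_eq_zero.2 (by
      have h8 := Int.emod_lt_of_pos m (show (0 : ℤ) < p by exact_mod_cast hp.out.pos)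
      exact Int.eq_zero_of_dvd_of_nonneg_of_lt h5 h8 h6))
  exact ⟨fin s h3, fun d hd => fin (c d) (h4 d hd)⟩

end Pool.Agent.K9h94.KV
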