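import Mathlib
import Pool.Agent.K9h94.KV.Short
import Pool.Agent.TH350.VD.Kummer

/-!
# Relations modulo `p`-th powers and the cyclotomic units `E_k`

The group `Kˣ / (Kˣ)^p` is a vector space over `ZMod p`.  A relation `∏ (1 - ζ^a)^(c a) = w y^p` gives
`(∑ c a a^k) F_k = 0`, where `F_k` is the class of `E_k`.
-/

set_option autoImplicit false

open Finset

namespace Pool.Agent.K9h94.KV

/-- `Kˣ` modulo `p`-th powers -/
def VV (K : Type) [Field K] (p : ℕ) : Type :=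
  Additive (Kˣ ⧸ (powMonoidHom p : Kˣ →* Kˣ).range)

noncomputable instance (K : Type) [Field K] (p : ℕ) : AddCommGroup (VV K p) :=
  inferInstanceAs (AddCommGroup (Additive (Kˣ ⧸ (powMonoidHom p : Kˣ →* Kˣ).range)))

/-- the class of a unit -/
noncomputable def uc {K : Type} [Field K] (p : ℕ) (x : Kˣ) : VV K p :=
  Additive.ofMul (QuotientGroup.mk x : Kˣ ⧸ (powMonoidHom p : Kˣ →* Kˣ).range)

lemma uc_mul {K : Type} [Field K] (p : ℕ) (x y : Kˣ) : uc p (x * y) = uc p x + uc p y := rfl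

lemma uc_surj {K : Type} [Field K] (p : ℕ) (x : VV K p) : ∃ y : Kˣ, uc p y = x := by
  obtain ⟨y, hy⟩ := QuotientGroup.mk_surjective
    (Additive.toMul (show Additive (Kˣ ⧸ (powMonoidHom p : Kˣ →* Kˣ).range) from x))
  exact ⟨y, by unfold uc; rw [hy]; rfl⟩

lemma uc_pow {K : Type} [Field K] (p : ℕ) (x : Kˣ) (n : ℕ) : uc p (x ^ n) = n • uc p x := rfl

lemma uc_eq_zero {K : Type} [Field K] (p : ℕ) (x : Kˣ) : uc p x = 0 ↔ ∃ y : Kˣ, y ^ p = x := by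
  have h1 : uc p x = 0 ↔ (QuotientGroup.mk x : Kˣ ⧸ (powMonoidHom p : Kˣ →* Kˣ).range) = 1 :=
    Iff.rfl
  rw [h1, QuotientGroup.eq_one_iff]
  rfl

variable {K : Type} [Field K] {p : ℕ} [hp : Fact p.Prime]

lemma VV_nsmul (x : VV K p) : p • x = 0 := by
  obtain ⟨y, rfl⟩ := uc_surj p x
  rw [← uc_pow, uc_eq_zero]
  exact ⟨y, rfl⟩

noncomputable instance : Module (ZMod p) (VV K p) := AddCommGroup.zmodModule (n := p) VV_nsmul

/-- the class of an element of `K` -/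
noncomputable def cl (p : ℕ) (x : K) : VV K p := by
  classical
  exact if h : x = 0 then 0 else uc p (Units.mk0 x h)

lemma cl_of_ne {x : K} (hx : x ≠ 0) : cl p x = uc p (Units.mk0 x hx) := by
  unfold cl
  rw [dif_neg hx]

lemma cl_mul {x y : K} (hx : x ≠ 0) (hy : y ≠ 0) : cl p (x * y) = cl p x + cl p y := by
  rw [cl_of_ne hx, cl_of_ne hy, cl_of_ne (mul_ne_zero hx hy), ← uc_mul]
  congr 1
  ext
  simp

lemma cl_one : cl p (1 : K) = 0 := by
  have h := cl_mul (p := p) (one_ne_zero (α := K)) one_ne_zero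
  rw [mul_one] at h
  simpa using h

lemma cl_pow {x : K} (hx : x ≠ 0) (n : ℕ) : cl p (x ^ n) = (n : ZMod p) • cl p x := by
  rw [Nat.cast_smul_eq_nsmul]
  induction n with
  | zero => rw [pow_zero, zero_smul, cl_one]
  | succ n ih => rw [pow_succ, cl_mul (pow_ne_zero _ hx) hx, ih, succ_nsmul]

lemma cl_pow_p {x : K} (hx : x ≠ 0) : cl p (x ^ p) = 0 := by
  rw [cl_pow hx, CharP.cast_eq_zero, zero_smul]

lemma cl_inv {x : K} (hx : x ≠ 0) : cl p x⁻¹ = - cl p x := by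
  have h := cl_mul (p := p) hx (inv_ne_zero hx)
  rw [mul_inv_cancel₀ hx, cl_one] at h
  exact (neg_eq_of_add_eq_zero_right h.symm).symm

lemma cl_div {x y : K} (hx : x ≠ 0) (hy : y ≠ 0) : cl p (x / y) = cl p x - cl p y := by
  rw [div_eq_mul_inv, cl_mul hx (inv_ne_zero hy), cl_inv hy, sub_eq_add_neg]

lemma cl_prod {ι : Type} (s : Finset ι) (f : ι → K) (hf : ∀ i ∈ s, f i ≠ 0) :
    cl p (∏ i ∈ s, f i) = ∑ i ∈ s, cl p (f i) := by
  classical
  induction s using Finset.induction_on with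
  | empty => simp [cl_one]
  | insert a s ha ih =>
    have h1 : ∀ i ∈ s, f i ≠ 0 := fun i hi => hf i (Finset.mem_insert_of_mem hi)
    rw [Finset.prod_insert ha, Finset.sum_insert ha, cl_mul (hf a (Finset.mem_insert_self a s))
      (Finset.prod_ne_zero_iff.2 h1), ih h1]

lemma cl_zero_iff {x : K} (hx : x ≠ 0) (h : cl p x = 0) : ∃ y : K, y ^ p = x := by
  rw [cl_of_ne hx, uc_eq_zero] at h
  obtain ⟨y, hy⟩ := h
  refine ⟨y, ?_⟩
  have := congrArg (fun u : Kˣ => (u : K)) hy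
  simpa using this

variable [CharZero K] [IsCyclotomicExtension {p} ℚ K]

lemma exists_aut {ζ : K} (hζ : IsPrimitiveRoot ζ p) (s : (ZMod p)ˣ) :
    ∃ σ : K ≃ₐ[ℚ] K, σ ζ = ζ ^ ((s : ZMod p)).val := by
  have hirr : Irreducible (Polynomial.cyclotomic p ℚ) :=
    Polynomial.cyclotomic.irreducible_rat hp.out.pos
  have hne : NeZero p := ⟨hp.out.ne_zero⟩
  set σ := (IsCyclotomicExtension.autEquivPow K hirr).symm s with hσ
  have hμ := IsCyclotomicExtension.zeta_spec p ℚ K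
  set μ := IsCyclotomicExtension.zeta p ℚ K with hμd
  have h1 : (IsCyclotomicExtension.autEquivPow K hirr) σ = s := by
    rw [hσ, MulEquiv.apply_symm_apply]
  have h2 : μ ^ ((hμ.autToPow ℚ σ : ZMod p)).val = σ μ := hμ.autToPow_spec ℚ σ
  have h3 : hμ.autToPow ℚ σ = s := h1
  rw [h3] at h2
  obtain ⟨i, -, hi⟩ := hμ.eq_pow_of_pow_eq_one hζ.pow_eq_one
  refine ⟨σ, ?_⟩
  rw [← hi, map_pow, ← h2, ← pow_mul, ← pow_mul, mul_comm]

/-- the class of `1 - ζ^t` -/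
noncomputable def vv (ζ : K) (t : ZMod p) : VV K p := cl p (1 - ζ ^ t.val)

/-- the class of `E_k` -/
noncomputable def FF (ζ : K) (k : ℕ) : VV K p :=
  ∑ t : (ZMod p)ˣ, (((t⁻¹ : (ZMod p)ˣ) : ZMod p) ^ k) • vv ζ (t : ZMod p)

omit [CharZero K] [IsCyclotomicExtension {p} ℚ K] in
lemma zpow_val {ζ : K} (hζ : IsPrimitiveRoot ζ p) (m : ℕ) : ζ ^ ((m : ZMod p)).val = ζ ^ m := by
  rw [ZMod.val_natCast]
  conv_rhs => rw [← Nat.mod_add_div m p, pow_add, pow_mul, hζ.pow_eq_one, one_pow, mul_one]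

omit [CharZero K] [IsCyclotomicExtension {p} ℚ K] in
lemma one_sub_ne' {ζ : K} (hζ : IsPrimitiveRoot ζ p) {t : ZMod p} (ht : t ≠ 0) :
    (1 : K) - ζ ^ t.val ≠ 0 := by
  refine sub_ne_zero.2 (Ne.symm (hζ.pow_ne_one_of_pos_of_lt ?_ (ZMod.val_lt t)))
  intro h
  exact ht ((ZMod.val_eq_zero t).1 h)

omit [CharZero K] [IsCyclotomicExtension {p} ℚ K] in
lemma FF_shift (ζ : K) (k : ℕ) (α : (ZMod p)ˣ) :
    ∑ s : (ZMod p)ˣ, (((s⁻¹ : (ZMod p)ˣ) : ZMod p) ^ k) • vv ζ ((s * α : (ZMod p)ˣ) : ZMod p) =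
      ((α : ZMod p) ^ k) • FF ζ k := by
  unfold FF
  rw [Finset.smul_sum]
  refine Fintype.sum_equiv (Equiv.mulRight α) _ _ fun s => ?_
  rw [Equiv.coe_mulRight, smul_smul, ← mul_pow]
  congr 2
  rw [mul_inv_rev, Units.val_mul, ← mul_assoc, Units.mul_inv, one_mul]

/-- a relation, conjugated -/
lemma rel_conj (hp2 : p ≠ 2) {ζ : K} (hζ : IsPrimitiveRoot ζ p) {ι : Type} (A : Finset ι)
    (α : ι → (ZMod p)ˣ) (c : ι → ℕ) (w y : K) (hw : Tor w)
    (h : ∏ a ∈ A, (1 - ζ ^ ((α a : ZMod p)).val) ^ c a = w * y ^ p) :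
    ∃ e : ZMod p, ∀ s : (ZMod p)ˣ,
      ∑ a ∈ A, ((c a : ℕ) : ZMod p) • vv ζ ((s * α a : (ZMod p)ˣ) : ZMod p) =
        ((s : ZMod p) * e) • cl p ζ := by
  have hpodd : Odd p := hp.out.odd_of_ne_two hp2
  have hζ0 : ζ ≠ 0 := hζ.ne_zero hp.out.ne_zero
  have hne : NeZero p := ⟨hp.out.ne_zero⟩
  have : NumberField K := IsCyclotomicExtension.numberField {p} ℚ K
  obtain ⟨e, he⟩ := hζ.exists_neg_pow_of_isOfFinOrder hpodd hw.isOfFinOrder
  have hy : y ≠ 0 := by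
    rintro rfl
    rw [zero_pow hp.out.ne_zero, mul_zero] at h
    exact Finset.prod_ne_zero_iff.2 (fun a ha => pow_ne_zero _ (one_sub_ne' hζ (α a).ne_zero)) h
  refine ⟨(e : ZMod p), fun s => ?_⟩
  obtain ⟨σ, hσ⟩ := exists_aut hζ s
  have h1 := congrArg σ h
  rw [he, map_mul, map_pow, map_pow, map_prod, map_neg, hσ] at h1
  have h2 : ∀ a ∈ A, σ ((1 - ζ ^ ((α a : ZMod p)).val) ^ c a) =
      (1 - ζ ^ (((s * α a : (ZMod p)ˣ) : ZMod p)).val) ^ c a := by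
    intro a _
    rw [map_pow, map_sub, map_one, map_pow, hσ, ← pow_mul]
    congr 2
    rw [← zpow_val hζ ((s : ZMod p).val * (α a : ZMod p).val)]
    congr 2
    push_cast
    rw [ZMod.natCast_zmod_val, ZMod.natCast_zmod_val]
  rw [Finset.prod_congr rfl h2] at h1
  have h3 := congrArg (cl p) h1
  have hσy : σ y ≠ 0 := by
    intro h0
    exact hy (σ.injective (by rw [h0, map_zero]))
  rw [cl_prod _ _ (fun a _ => pow_ne_zero _ (one_sub_ne' hζ (s * α a).ne_zero)),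
    cl_mul (pow_ne_zero _ (neg_ne_zero.2 (pow_ne_zero _ hζ0))) (pow_ne_zero _ hσy),
    cl_pow_p hσy, add_zero, cl_pow (neg_ne_zero.2 (pow_ne_zero _ hζ0)), neg_eq_neg_one_mul,
    cl_mul (neg_ne_zero.2 one_ne_zero) (pow_ne_zero _ hζ0)] at h3
  have h4 : cl p (-1 : K) = 0 := by
    have h5 := cl_pow_p (p := p) (x := (-1 : K)) (neg_ne_zero.2 one_ne_zero)
    rwa [hpodd.neg_one_pow] at h5
  rw [h4, zero_add, cl_pow hζ0, ZMod.natCast_zmod_val, smul_smul] at h3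
  rw [mul_comm (s : ZMod p), ← h3]
  refine Finset.sum_congr rfl fun a _ => ?_
  rw [cl_pow (one_sub_ne' hζ (s * α a).ne_zero)]
  rfl

/-- a relation and the class of `E_k` -/
theorem rel_eigen (hp2 : p ≠ 2) {ζ : K} (hζ : IsPrimitiveRoot ζ p) {ι : Type} (A : Finset ι)
    (α : ι → (ZMod p)ˣ) (c : ι → ℕ) (w y : K) (hw : Tor w)
    (h : ∏ a ∈ A, (1 - ζ ^ ((α a : ZMod p)).val) ^ c a = w * y ^ p) {k : ℕ} (hk2 : 2 ≤ k)
    (hk : k < p) :
    (∑ a ∈ A, ((c a : ℕ) : ZMod p) * (α a : ZMod p) ^ k) • (FF ζ k : VV K p) = 0 := by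
  obtain ⟨e, he⟩ := rel_conj hp2 hζ A α c w y hw h
  rw [Finset.sum_smul]
  have h1 : ∀ a ∈ A, (((c a : ℕ) : ZMod p) * (α a : ZMod p) ^ k) • FF ζ k =
      ∑ s : (ZMod p)ˣ, (((s⁻¹ : (ZMod p)ˣ) : ZMod p) ^ k) •
        (((c a : ℕ) : ZMod p) • vv ζ ((s * α a : (ZMod p)ˣ) : ZMod p)) := by
    intro a _
    rw [mul_smul, ← FF_shift, Finset.smul_sum]
    refine Finset.sum_congr rfl fun s _ => ?_
    rw [smul_smul, smul_smul, mul_comm]
  rw [Finset.sum_congr rfl h1, Finset.sum_comm]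
  have h2 : ∀ s : (ZMod p)ˣ, ∑ a ∈ A, (((s⁻¹ : (ZMod p)ˣ) : ZMod p) ^ k) •
        (((c a : ℕ) : ZMod p) • vv ζ ((s * α a : (ZMod p)ˣ) : ZMod p)) =
      ((((s⁻¹ : (ZMod p)ˣ) : ZMod p) ^ (k - 1)) * e) • cl p ζ := by
    intro s
    rw [← Finset.smul_sum, he s, smul_smul]
    congr 1
    obtain ⟨m, rfl⟩ : ∃ m, k = m + 1 := ⟨k - 1, by omega⟩
    rw [Nat.add_sub_cancel, pow_succ, mul_assoc, ← mul_assoc (((s⁻¹ : (ZMod p)ˣ) : ZMod p)),
      Units.inv_mul, one_mul]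
  rw [Finset.sum_congr rfl (fun s _ => h2 s), ← Finset.sum_smul, ← Finset.sum_mul]
  have h3 : ∑ s : (ZMod p)ˣ, (((s⁻¹ : (ZMod p)ˣ) : ZMod p) ^ (k - 1)) = 0 := by
    have h5 := Fintype.sum_equiv (Equiv.inv (ZMod p)ˣ)
      (fun s : (ZMod p)ˣ => ((s⁻¹ : (ZMod p)ˣ) : ZMod p) ^ (k - 1))
      (fun s : (ZMod p)ˣ => ((s : ZMod p)) ^ (k - 1)) (fun s => rfl)
    rw [h5]
    have h4 := FiniteField.sum_pow_units (ZMod p) (k - 1)
    rw [ZMod.card, if_neg (fun hd => by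
      have := Nat.le_of_dvd (by omega) hd
      omega)] at h4
    exact h4
  rw [h3, zero_mul, zero_smul]

omit [CharZero K] [IsCyclotomicExtension {p} ℚ K] in
lemma sum_Icc_units {M : Type} [AddCommMonoid M] (f : ZMod p → M) :
    ∑ a ∈ Icc 1 (p - 1), f ((a : ℕ) : ZMod p) = ∑ t : (ZMod p)ˣ, f (t : ZMod p) := by
  symm
  refine Finset.sum_bij (fun t _ => ((t : ZMod p)).val) ?_ ?_ ?_ ?_
  · intro t _
    have h1 := ZMod.val_lt (t : ZMod p)
    have h2 : (t : ZMod p).val ≠ 0 := fun h0 => t.ne_zero ((ZMod.val_eq_zero _).1 h0)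
    rw [Finset.mem_Icc]
    omega
  · intro t _ t' _ h
    exact Units.ext (ZMod.val_injective p h)
  · intro a ha
    rw [Finset.mem_Icc] at ha
    have hcop : a.Coprime p :=
      (Nat.coprime_of_lt_prime (by omega) (by omega) hp.out).symm
    refine ⟨ZMod.unitOfCoprime a hcop, Finset.mem_univ _, ?_⟩
    rw [ZMod.coe_unitOfCoprime, ZMod.val_natCast, Nat.mod_eq_of_lt (by omega)]
  · intro t _
    rw [ZMod.natCast_zmod_val]

omit [CharZero K] [IsCyclotomicExtension {p} ℚ K] in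
/-- `FF ζ k` is the class of `E_k` -/
theorem FF_eq {ζ : K} (hζ : IsPrimitiveRoot ζ p) {k : ℕ} (hk2 : 2 ≤ k) (hk : k + 3 ≤ p) :
    cl p (Pool.Agent.TH350.VD.cycUnit p k ζ) = FF ζ k := by
  unfold Pool.Agent.TH350.VD.cycUnit
  have h1 : (1 : K) - ζ ≠ 0 := by
    have h := one_sub_ne' hζ (t := 1) one_ne_zero
    rwa [ZMod.val_one, pow_one] at h
  have h0 : ∀ a ∈ Icc 1 (p - 1), (1 : K) - ζ ^ a ≠ 0 := by
    intro a ha
    rw [Finset.mem_Icc] at ha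
    exact sub_ne_zero.2 (Ne.symm (hζ.pow_ne_one_of_pos_of_lt (by omega) (by omega)))
  rw [cl_prod _ _ (fun a ha => pow_ne_zero _ (div_ne_zero (h0 a ha) h1))]
  have h2 : ∀ a ∈ Icc 1 (p - 1), cl p (((1 - ζ ^ a) / (1 - ζ)) ^ a ^ (p - 1 - k)) =
      (((a : ℕ) : ZMod p) ^ (p - 1 - k)) • vv ζ ((a : ℕ) : ZMod p) -
        (((a : ℕ) : ZMod p) ^ (p - 1 - k)) • cl p (1 - ζ) := by
    intro a ha
    rw [cl_pow (div_ne_zero (h0 a ha) h1), cl_div (h0 a ha) h1, smul_sub, Nat.cast_pow]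
    unfold vv
    rw [zpow_val hζ]
  rw [Finset.sum_congr rfl h2, Finset.sum_sub_distrib, ← Finset.sum_smul,
    sum_Icc_units (fun t : ZMod p => t ^ (p - 1 - k) • vv ζ t),
    sum_Icc_units (fun t : ZMod p => t ^ (p - 1 - k))]
  have h3 := FiniteField.sum_pow_units (ZMod p) (p - 1 - k)
  rw [ZMod.card, if_neg (fun hd => by
    have := Nat.le_of_dvd (by omega) hd
    omega)] at h3
  rw [h3, zero_smul, sub_zero]
  unfold FF
  refine Finset.sum_congr rfl fun t _ => ?_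
  congr 1
  have h4 : (t : ZMod p) ^ (p - 1) = 1 := ZMod.pow_card_sub_one_eq_one t.ne_zero
  have h5 : (t : ZMod p) ^ (p - 1 - k) * (t : ZMod p) ^ k = 1 := by
    rw [← pow_add, Nat.sub_add_cancel (by omega), h4]
  have h6 : ((t⁻¹ : (ZMod p)ˣ) : ZMod p) ^ k * (t : ZMod p) ^ k = 1 := by
    rw [← mul_pow, Units.inv_mul, one_pow]
  exact mul_right_cancel₀ (pow_ne_zero k t.ne_zero) (h5.trans h6.symm)

/-- if `E_k` is not a `p`-th power then the exponents of a relation satisfy `∑ c a a^k = 0` -/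
theorem rel_sum (hp2 : p ≠ 2) {ζ : K} (hζ : IsPrimitiveRoot ζ p) {ι : Type} (A : Finset ι)
    (α : ι → (ZMod p)ˣ) (c : ι → ℕ) (w y : K) (hw : Tor w)
    (h : ∏ a ∈ A, (1 - ζ ^ ((α a : ZMod p)).val) ^ c a = w * y ^ p) {k : ℕ} (hk2 : 2 ≤ k)
    (hk : k + 3 ≤ p) (hE : ¬ ∃ y : K, y ^ p = Pool.Agent.TH350.VD.cycUnit p k ζ) :
    ∑ a ∈ A, ((c a : ℕ) : ZMod p) * (α a : ZMod p) ^ k = 0 := by
  by_contra h0
  have h1 := rel_eigen hp2 hζ A α c w y hw h hk2 (by omega)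
  rcases smul_eq_zero.1 h1 with h2 | h2
  · exact h0 h2
  · rw [← FF_eq hζ hk2 hk] at h2
    refine hE (cl_zero_iff ?_ h2)
    unfold Pool.Agent.TH350.VD.cycUnit
    refine Finset.prod_ne_zero_iff.2 fun a ha => pow_ne_zero _ (div_ne_zero ?_ ?_)
    · rw [Finset.mem_Icc] at ha
      exact sub_ne_zero.2 (Ne.symm (hζ.pow_ne_one_of_pos_of_lt (by omega) (by omega)))
    · have h := one_sub_ne' hζ (t := 1) one_ne_zero
      rwa [ZMod.val_one, pow_one] at h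

end Pool.Agent.K9h94.KV
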