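import Mathlib
import Pool.Agent.K9h94.KV.Eigen
import Pool.Agent.N840.CU.Prime

/-!
# The number of relations modulo `p`-th powers between few of the numbers `1 - ζ^a`
-/

set_option autoImplicit false

open Finset

namespace Pool.Agent.K9h94.KV

/-- the relations modulo `p`-th powers and roots of unity between the `1 - ζ^a`, `a ∈ A` -/
def Rel {K : Type} [Field K] (p : ℕ) (ζ : K) (A : Finset ℕ) : Set (A → ZMod p) :=
  {c | ∃ w y : K, Tor w ∧ ∏ a : A, (1 - ζ ^ (a : ℕ)) ^ ((c a).val) = w * y ^ p}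

/-- `i` is not divisible by `(p - 1) / 2` and `E_{2 i'}` is a `p`-th power, where
`i' = i mod (p - 1) / 2`. -/
def Bad {K : Type} [Field K] (p : ℕ) (ζ : K) (i : ℕ) : Prop :=
  i % ((p - 1) / 2) ≠ 0 ∧
    ∃ y : K, y ^ p = Pool.Agent.TH350.VD.cycUnit p (2 * (i % ((p - 1) / 2))) ζ

variable {K : Type} [Field K] {p : ℕ} [hp : Fact p.Prime] [CharZero K]
  [IsCyclotomicExtension {p} ℚ K]

omit [CharZero K] [IsCyclotomicExtension {p} ℚ K] in
lemma cop {A : Finset ℕ} (hA : A ⊆ Icc 1 ((p - 1) / 2)) (a : A) : (a : ℕ).Coprime p := by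
  have h := hA a.2
  rw [Finset.mem_Icc] at h
  exact (Nat.coprime_of_lt_prime (by omega) (by omega) hp.out).symm

/-- the exponents of a relation satisfy `∑ c a a^(2i) = 0` for the good `i` -/
theorem good_sum (hp2 : p ≠ 2) {ζ : K} (hζ : IsPrimitiveRoot ζ p) {A : Finset ℕ}
    (hA : A ⊆ Icc 1 ((p - 1) / 2)) {c : A → ZMod p} (hc : c ∈ Rel p ζ A) {i : ℕ}
    (hi : ¬ Bad p ζ i) : ∑ a : A, c a * ((a : ℕ) : ZMod p) ^ (2 * i) = 0 := by
  have hp3 : p % 2 = 1 := Nat.odd_iff.1 (hp.out.odd_of_ne_two hp2)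
  have hpge := hp.out.two_le
  obtain ⟨w, y, hw, h⟩ := hc
  set N := (p - 1) / 2 with hN
  have h2N : 2 * N = p - 1 := by omega
  have hN0 : 0 < N := by omega
  -- reduction of `i` modulo `N`
  have hred : ∀ a : A, ((a : ℕ) : ZMod p) ^ (2 * i) = ((a : ℕ) : ZMod p) ^ (2 * (i % N)) := by
    intro a
    have h1 : ((a : ℕ) : ZMod p) ^ (p - 1) = 1 := by
      refine ZMod.pow_card_sub_one_eq_one ?_
      intro h0
      rw [ZMod.natCast_eq_zero_iff] at h0
      exact (Nat.Prime.coprime_iff_not_dvd hp.out).1 (cop hA a).symm h0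
    conv_lhs => rw [← Nat.div_add_mod i N]
    rw [mul_add, pow_add, ← mul_assoc, h2N, pow_mul, h1, one_pow, one_mul]
  have h1 : ∑ a : A, c a * ((a : ℕ) : ZMod p) ^ (2 * i) =
      ∑ a : A, c a * ((a : ℕ) : ZMod p) ^ (2 * (i % N)) :=
    Finset.sum_congr rfl fun a _ => by rw [hred]
  rw [h1]
  by_cases h0 : i % N = 0
  · -- the sum of the exponents
    rw [h0]
    simp only [mul_zero, pow_zero, mul_one]
    have h2 := Pool.Agent.N840.CU.sum_dvd (K := K) hp3 hζ A hA
      (fun a => if h : a ∈ A then (c ⟨a, h⟩).val else 0) p w y hw (by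
        rw [← h, ← Finset.prod_coe_sort A]
        refine Finset.prod_congr rfl fun a _ => ?_
        rw [dif_pos a.2])
    rw [← Finset.sum_coe_sort A] at h2
    have h3 : ∑ a : A, (if h : (a : ℕ) ∈ A then (c ⟨(a : ℕ), h⟩).val else 0) =
        ∑ a : A, (c a).val := Finset.sum_congr rfl fun a _ => by rw [dif_pos a.2]
    rw [h3, ← ZMod.natCast_eq_zero_iff] at h2
    push_cast at h2
    simpa using h2
  · have hE : ¬ ∃ y : K, y ^ p = Pool.Agent.TH350.VD.cycUnit p (2 * (i % N)) ζ :=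
      fun h2 => hi ⟨h0, h2⟩
    have hlt := Nat.mod_lt i hN0
    have h2 := rel_sum hp2 hζ (Finset.univ : Finset A)
      (fun a => ZMod.unitOfCoprime (a : ℕ) (cop hA a)) (fun a => (c a).val) w y hw (by
        rw [← h]
        refine Finset.prod_congr rfl fun a _ => ?_
        rw [ZMod.coe_unitOfCoprime, zpow_val hζ]) (k := 2 * (i % N)) (by omega) (by omega) hE
    simp only [ZMod.coe_unitOfCoprime, ZMod.natCast_val, ZMod.cast_id', id] at h2
    exact h2

omit [CharZero K] [IsCyclotomicExtension {p} ℚ K] in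
/-- the nodes are distinct -/
lemma nodes (hp2 : p ≠ 2) {A : Finset ℕ} (hA : A ⊆ Icc 1 ((p - 1) / 2)) {u : ℕ}
    (hu : u.Coprime ((p - 1) / 2)) :
    Function.Injective (fun a : A => (((a : ℕ) : ZMod p)) ^ (2 * u)) := by
  intro a b hab
  have hp3 : p % 2 = 1 := Nat.odd_iff.1 (hp.out.odd_of_ne_two hp2)
  have ha := hA a.2
  have hb := hA b.2
  rw [Finset.mem_Icc] at ha hb
  have hane : ((a : ℕ) : ZMod p) ≠ 0 := by
    intro h0
    rw [ZMod.natCast_eq_zero_iff] at h0
    exact (Nat.Prime.coprime_iff_not_dvd hp.out).1 (cop hA a).symm h0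
  have hbne : ((b : ℕ) : ZMod p) ≠ 0 := by
    intro h0
    rw [ZMod.natCast_eq_zero_iff] at h0
    exact (Nat.Prime.coprime_iff_not_dvd hp.out).1 (cop hA b).symm h0
  set z : ZMod p := (((a : ℕ) : ZMod p) / ((b : ℕ) : ZMod p)) ^ 2 with hz
  have hz1 : z ^ u = 1 := by
    simp only at hab
    rw [hz, ← pow_mul, div_pow, hab, div_self (pow_ne_zero _ hbne)]
  have hz2 : z ^ ((p - 1) / 2) = 1 := by
    rw [hz, ← pow_mul, show 2 * ((p - 1) / 2) = p - 1 by omega]
    exact ZMod.pow_card_sub_one_eq_one (div_ne_zero hane hbne)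
  have h1 : orderOf z ∣ 1 := by
    rw [← Nat.Coprime.gcd_eq_one hu]
    exact Nat.dvd_gcd (orderOf_dvd_of_pow_eq_one hz1) (orderOf_dvd_of_pow_eq_one hz2)
  have h2 : z = 1 := by
    rw [← orderOf_eq_one_iff]
    exact Nat.dvd_one.1 h1
  have h3 : ((a : ℕ) : ZMod p) ^ 2 = ((b : ℕ) : ZMod p) ^ 2 := by
    rw [hz, div_pow, div_eq_one_iff_eq (pow_ne_zero _ hbne)] at h2
    exact h2
  rcases sq_eq_sq_iff_eq_or_eq_neg.1 h3 with h4 | h4
  · rw [ZMod.natCast_eq_natCast_iff] at h4
    have h5 := Nat.ModEq.eq_of_lt_of_lt h4 (by omega) (by omega)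
    exact Subtype.ext h5
  · exfalso
    have h5 : (((a : ℕ) + (b : ℕ) : ℕ) : ZMod p) = 0 := by
      push_cast
      rw [h4]; ring
    rw [ZMod.natCast_eq_zero_iff] at h5
    have := Nat.le_of_dvd (by omega) h5
    omega

/-- a function on `A` is determined by `A.card` moments -/
lemma moments (hp2 : p ≠ 2) {A : Finset ℕ} (hA : A ⊆ Icc 1 ((p - 1) / 2)) {u : ℕ}
    (hu : u.Coprime ((p - 1) / 2)) (s : ℕ) (c : A → ZMod p)
    (hc : ∀ j < A.card, ∑ a : A, c a * ((a : ℕ) : ZMod p) ^ (2 * (s + j * u)) = 0) : c = 0 := by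
  set e : A ≃ Fin A.card := A.equivFin with he
  have h1 : (fun x : Fin A.card => c (e.symm x) * (((e.symm x : A) : ℕ) : ZMod p) ^ (2 * s)) = 0 := by
    refine Matrix.eq_zero_of_forall_pow_sum_mul_pow_eq_zero
      (f := fun x : Fin A.card => (((e.symm x : A) : ℕ) : ZMod p) ^ (2 * u)) ?_ ?_
    · exact (nodes hp2 hA hu).comp e.symm.injective
    · intro j
      have h2 := hc j j.2
      rw [← h2, ← e.symm.sum_comp]
      refine Finset.sum_congr rfl fun x _ => ?_
      rw [mul_assoc, ← pow_mul, ← pow_add]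
      congr 2
      ring
  funext a
  have h2 := congrFun h1 (e a)
  simp only [Equiv.symm_apply_apply, Pi.zero_apply] at h2
  rcases mul_eq_zero.1 h2 with h3 | h3
  · exact h3
  · exfalso
    have h4 := eq_zero_of_pow_eq_zero h3
    rw [ZMod.natCast_eq_zero_iff] at h4
    exact (Nat.Prime.coprime_iff_not_dvd hp.out).1 (cop hA a).symm h4

open Classical in
/-- THE NUMBER OF RELATIONS is at most `p^r`, where `r` is the number of the bad indices in an
arithmetic progression of length `A.card`. -/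
theorem card_rel (hp2 : p ≠ 2) {ζ : K} (hζ : IsPrimitiveRoot ζ p) {A : Finset ℕ}
    (hA : A ⊆ Icc 1 ((p - 1) / 2)) (s : ℕ) {u : ℕ} (hu : u.Coprime ((p - 1) / 2)) :
    Nat.card (Rel p ζ A) ≤ p ^ ((range A.card).filter (fun j => Bad p ζ (s + j * u))).card := by
  set B := (range A.card).filter (fun j => Bad p ζ (s + j * u)) with hB
  let g : Rel p ζ A → (B → ZMod p) := fun c j =>
    ∑ a : A, c.1 a * ((a : ℕ) : ZMod p) ^ (2 * (s + (j : ℕ) * u))
  have hg : Function.Injective g := by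
    intro c c' hcc
    apply Subtype.ext
    rw [← sub_eq_zero]
    refine moments hp2 hA hu s _ fun j hj => ?_
    have h0 : ∑ a : A, (c.1 - c'.1) a * ((a : ℕ) : ZMod p) ^ (2 * (s + j * u)) =
        ∑ a : A, c.1 a * ((a : ℕ) : ZMod p) ^ (2 * (s + j * u)) -
          ∑ a : A, c'.1 a * ((a : ℕ) : ZMod p) ^ (2 * (s + j * u)) := by
      rw [← Finset.sum_sub_distrib]
      exact Finset.sum_congr rfl fun a _ => by rw [Pi.sub_apply, sub_mul]
    rw [h0]
    by_cases hb : Bad p ζ (s + j * u)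
    · have hj' : j ∈ B := by rw [hB, Finset.mem_filter, Finset.mem_range]; exact ⟨hj, hb⟩
      have h1 := congrFun hcc ⟨j, hj'⟩
      simp only [g] at h1
      rw [h1, sub_self]
    · rw [good_sum hp2 hζ hA c.2 hb, good_sum hp2 hζ hA c'.2 hb, sub_self]
  have h1 := Nat.card_le_card_of_injective g hg
  refine h1.trans (le_of_eq ?_)
  rw [Nat.card_eq_fintype_card, Fintype.card_fun, ZMod.card, Fintype.card_coe]

lemma zero_mem {ζ : K} (A : Finset ℕ) : (0 : A → ZMod p) ∈ Rel p ζ A := by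
  refine ⟨1, 1, ⟨1, one_pos, one_pow 1⟩, ?_⟩
  simp

/-- with at most one relation there are only trivial ones -/
lemma trivial_of_card {ζ : K} {A : Finset ℕ} (h : Nat.card (Rel p ζ A) ≤ 1) {c : A → ZMod p}
    (hc : c ∈ Rel p ζ A) : c = 0 := by
  have hfin : Finite (Rel p ζ A) := inferInstance
  have h1 : Subsingleton (Rel p ζ A) := by
    rw [← Finite.card_le_one_iff_subsingleton]
    exact h
  have h2 := Subsingleton.elim (⟨c, hc⟩ : Rel p ζ A) ⟨0, zero_mem A⟩
  exact congrArg Subtype.val h2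

/-- integral exponents -/
theorem int_of_card {ζ : K} (hζ : IsPrimitiveRoot ζ p) {A : Finset ℕ}
    (hA : A ⊆ Icc 1 ((p - 1) / 2)) (h : Nat.card (Rel p ζ A) ≤ 1) (c : ℕ → ℤ) (w y : K)
    (hw : Tor w) (hc : ∏ a ∈ A, (1 - ζ ^ a) ^ (c a) = w * y ^ p) : ∀ a ∈ A, (p : ℤ) ∣ c a := by
  have hp0 : (p : ℤ) ≠ 0 := by exact_mod_cast hp.out.ne_zero
  have hne : ∀ a ∈ A, (1 : K) - ζ ^ a ≠ 0 := by
    intro a ha
    have h1 := hA ha
    rw [Finset.mem_Icc] at h1
    exact sub_ne_zero.2 (Ne.symm (hζ.pow_ne_one_of_pos_of_lt (by omega) (by omega)))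
  have hmem : (fun a : A => ((c a : ℤ) : ZMod p)) ∈ Rel p ζ A := by
    refine ⟨w, y * ∏ a ∈ A, (1 - ζ ^ a) ^ (-(c a / p)), hw, ?_⟩
    rw [mul_pow, ← mul_assoc, ← hc, ← Finset.prod_pow, ← Finset.prod_mul_distrib,
      ← Finset.prod_coe_sort A]
    refine Finset.prod_congr rfl fun a _ => ?_
    have h0 := hne a a.2
    rw [← zpow_natCast (1 - ζ ^ (a : ℕ)) (((c a : ℤ) : ZMod p).val),
      ← zpow_natCast ((1 - ζ ^ (a : ℕ)) ^ (-(c a / p))) p, ← zpow_mul, ← zpow_add₀ h0,
      ZMod.val_intCast]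
    congr 1
    have := Int.emod_add_mul_ediv (c a) p
    linarith
  have h1 := trivial_of_card h hmem
  intro a ha
  have h2 := congrFun h1 ⟨a, ha⟩
  exact (ZMod.intCast_zmod_eq_zero_iff_dvd _ _).1 h2

open Classical in
/-- few bad indices: there is a window without bad indices -/
lemma exists_window {ζ : K} {m N : ℕ} (hN : N = (p - 1) / 2)
    (h : m * ((range N).filter (Bad p ζ)).card < N) :
    ∃ s : ℕ, ∀ j < m, ¬ Bad p ζ (s + j) := by
  by_contra hcon
  push Not at hcon
  have hN0 : 0 < N := by omega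
  have hsub : range N ⊆ (((range N).filter (Bad p ζ)) ×ˢ (range m)).image
      (fun x => (x.1 + (N - x.2 % N)) % N) := by
    intro s hs
    rw [Finset.mem_range] at hs
    obtain ⟨j, hj, hb⟩ := hcon s
    rw [Finset.mem_image]
    refine ⟨((s + j) % N, j), ?_, ?_⟩
    · rw [Finset.mem_product, Finset.mem_filter, Finset.mem_range, Finset.mem_range]
      refine ⟨⟨Nat.mod_lt _ hN0, ?_⟩, hj⟩
      unfold Bad at hb ⊢
      rw [← hN] at hb ⊢
      simp only [Nat.mod_mod]
      exact hb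
    · simp only
      have h1 : j % N < N := Nat.mod_lt _ hN0
      have h2 : (s + j) % N + (N - j % N) ≡ s [MOD N] := by
        have h3 : (s + j) % N + (N - j % N) + j ≡ s + j [MOD N] := by
          have h4 : (s + j) % N ≡ s + j [MOD N] := Nat.mod_modEq _ _
          have h5 : (N - j % N) + j ≡ 0 [MOD N] := by
            have h6 : N - j % N + j = N * (j / N + 1) := by
              have := Nat.div_add_mod j N
              rw [mul_add, mul_one]
              omega
            rw [h6]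
            exact (Nat.modEq_zero_iff_dvd).2 (dvd_mul_right _ _)
          have h6 := h4.add h5
          rw [add_zero] at h6
          rw [add_assoc]
          exact h6
        exact Nat.ModEq.add_right_cancel' j h3
      have h3 : ((s + j) % N + (N - j % N)) % N = s % N := h2
      rw [h3, Nat.mod_eq_of_lt hs]
  have h1 := (Finset.card_le_card hsub).trans Finset.card_image_le
  rw [Finset.card_range, Finset.card_product, Finset.card_range, mul_comm] at h1
  omega

open Classical in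
/-- the uncertainty principle -/
theorem few_bad (hp2 : p ≠ 2) {ζ : K} (hζ : IsPrimitiveRoot ζ p) {A : Finset ℕ}
    (hA : A ⊆ Icc 1 ((p - 1) / 2))
    (h : A.card * ((range ((p - 1) / 2)).filter (Bad p ζ)).card < (p - 1) / 2) :
    Nat.card (Rel p ζ A) ≤ 1 := by
  obtain ⟨s, hs⟩ := exists_window (p := p) (ζ := ζ) rfl h
  have h1 := card_rel hp2 hζ hA s (u := 1) (Nat.coprime_one_left _)
  have h2 : (range A.card).filter (fun j => Bad p ζ (s + j * 1)) = ∅ := by
    rw [Finset.filter_eq_empty_iff]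
    intro j hj
    rw [Finset.mem_range] at hj
    rw [mul_one]
    exact hs j hj
  rw [h2, Finset.card_empty, pow_zero] at h1
  exact h1

end Pool.Agent.K9h94.KV
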