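import Mathlib
import Pool.Agent.K9h94.KV.Sparse
import Pool.Agent.Results.MP_a3a416_nt.SparseIrregular

/-!
# Relations between few cyclotomic numbers, for almost all primes
-/

set_option autoImplicit false

open Finset Filter Topology

namespace Pool.Agent.K9h94.KV

open Pool.Agent.Results.MP_a3a416_nt.SparseIrregular (irregularCount)

/-- `P` holds for almost all primes -/
def AlmostAll (P : ℕ → Prop) : Prop :=
  Tendsto (fun X : ℕ => (({p : ℕ | p ≤ X ∧ p.Prime ∧ P p}.ncard : ℕ) : ℝ) /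
    (({p : ℕ | p ≤ X ∧ p.Prime}.ncard : ℕ) : ℝ)) atTop (𝓝 1)

lemma AlmostAll.mono {P Q : ℕ → Prop} (h : AlmostAll P) (hPQ : ∀ p, p.Prime → P p → Q p) :
    AlmostAll Q := by
  unfold AlmostAll at *
  have hfin : ∀ X : ℕ, {p : ℕ | p ≤ X ∧ p.Prime}.Finite := fun X =>
    (Set.finite_le_nat X).subset fun p hp => hp.1
  refine tendsto_of_tendsto_of_tendsto_of_le_of_le h tendsto_const_nhds ?_ ?_
  · intro X
    refine div_le_div_of_nonneg_right ?_ (Nat.cast_nonneg _)
    refine Nat.cast_le.2 (Set.ncard_le_ncard ?_ ((hfin X).subset fun p hp => ⟨hp.1, hp.2.1⟩))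
    rintro p ⟨h1, h2, h3⟩
    exact ⟨h1, h2, hPQ p h2 h3⟩
  · intro X
    refine div_le_one_of_le₀ ?_ (Nat.cast_nonneg _)
    refine Nat.cast_le.2 (Set.ncard_le_ncard ?_ (hfin X))
    rintro p ⟨h1, h2, -⟩
    exact ⟨h1, h2⟩

section
variable {K : Type} [Field K] {p : ℕ} [hp : Fact p.Prime] [CharZero K]
  [IsCyclotomicExtension {p} ℚ K]

/-- a bad index less than `(p - 1) / 2` is an irregular index -/
lemma bad_irregular {ζ : K} (hζ : IsPrimitiveRoot ζ p) {j : ℕ} (hj : j < (p - 1) / 2)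
    (h : Bad p ζ j) : 1 ≤ j ∧ (p : ℤ) ∣ (bernoulli (2 * j)).num := by
  obtain ⟨h1, y, hy⟩ := h
  rw [Nat.mod_eq_of_lt hj] at h1 hy
  refine ⟨by omega, ?_⟩
  have hζ' : IsPrimitiveRoot ζ (p ^ (0 + 1)) := by simpa using hζ
  have : IsCyclotomicExtension {p ^ (0 + 1)} ℚ K := by
    rw [zero_add, pow_one]; infer_instance
  exact Pool.Agent.TH350.VD.kummer (n := 0) (by omega) (by omega) hζ' hy

open Classical in
/-- the number of relations, for all primes -/
theorem card_irr (hp2 : p ≠ 2) {ζ : K} (hζ : IsPrimitiveRoot ζ p) {A : Finset ℕ}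
    (hA : A ⊆ Icc 1 ((p - 1) / 2)) : Nat.card (Rel p ζ A) ≤ p ^ irregularCount p A.card := by
  have h1 := card_rel hp2 hζ hA 0 (u := 1) (Nat.coprime_one_left _)
  refine h1.trans (Nat.pow_le_pow_right hp.out.pos ?_)
  unfold irregularCount
  refine Finset.card_le_card fun j hj => ?_
  rw [Finset.mem_filter, Finset.mem_range, zero_add, mul_one] at hj
  have h2 := Finset.card_le_card hA
  rw [Nat.card_Icc] at h2
  obtain ⟨h3, h4⟩ := bad_irregular hζ (by omega) hj.2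
  rw [Finset.mem_filter, Finset.mem_Icc]
  exact ⟨⟨h3, by omega⟩, h4⟩

end

lemma empty_of_two {A : Finset ℕ} (hA : A ⊆ Icc 1 ((2 - 1) / 2)) : A = ∅ := by
  rw [Finset.eq_empty_iff_forall_notMem]
  intro a ha
  have := hA ha
  rw [Finset.mem_Icc] at this
  omega

lemma card_irr' (p : ℕ) [hp : Fact p.Prime] (K : Type) [Field K] [CharZero K]
    [IsCyclotomicExtension {p} ℚ K] (ζ : K) (hζ : IsPrimitiveRoot ζ p) (A : Finset ℕ)
    (hA : A ⊆ Icc 1 ((p - 1) / 2)) : Nat.card (Rel p ζ A) ≤ p ^ irregularCount p A.card := by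
  by_cases hp2 : p = 2
  · subst hp2
    have h1 := empty_of_two hA
    subst h1
    have h2 : Nat.card (Rel 2 ζ (∅ : Finset ℕ)) ≤ 1 := by
      have : Subsingleton (Rel 2 ζ (∅ : Finset ℕ)) := by
        refine ⟨fun x y => Subtype.ext (funext fun a => ?_)⟩
        exact absurd a.2 (Finset.notMem_empty _)
      rw [Finite.card_le_one_iff_subsingleton]
      exact this
    exact h2.trans Nat.one_le_two_pow
  · exact card_irr hp2 hζ hA

/-- THE RANK, for almost all primes -/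
theorem almost_rank (η : ℝ) (hη : 0 < η) (ψ : ℕ → ℝ) (hψ : Tendsto ψ atTop atTop) :
    AlmostAll fun p => ∀ (K : Type) [Field K] [CharZero K] [IsCyclotomicExtension {p} ℚ K]
      (ζ : K), IsPrimitiveRoot ζ p → ∀ A : Finset ℕ, A ⊆ Icc 1 ((p - 1) / 2) →
        (Nat.card (Rel p ζ A) : ℝ) ≤
          (p : ℝ) ^ (ψ p * ((A.card : ℝ) ^ 2 * Real.log p / p) ^ (1 + η)) := by
  refine AlmostAll.mono (Pool.Agent.Results.MP_a3a416_nt.SparseIrregular.result η hη ψ hψ) ?_
  intro p hpp hirr K _ _ _ ζ hζ A hA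
  have hp : Fact p.Prime := ⟨hpp⟩
  have h1 := card_irr' p K ζ hζ A hA
  have h2 := hirr A.card
  have hp1 : (1 : ℝ) ≤ p := by exact_mod_cast hpp.one_lt.le
  calc (Nat.card (Rel p ζ A) : ℝ) ≤ ((p ^ irregularCount p A.card : ℕ) : ℝ) := by exact_mod_cast h1
    _ = (p : ℝ) ^ ((irregularCount p A.card : ℕ) : ℝ) := by
        rw [Nat.cast_pow, Real.rpow_natCast]
    _ ≤ _ := Real.rpow_le_rpow_of_exponent_le hp1 h2

/-- INDEPENDENCE, for almost all primes -/
theorem almost_indep (ψ : ℕ → ℝ) (hψ : Tendsto ψ atTop atTop) :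
    AlmostAll fun p => ∀ (K : Type) [Field K] [CharZero K] [IsCyclotomicExtension {p} ℚ K]
      (ζ : K), IsPrimitiveRoot ζ p → ∀ A : Finset ℕ, A ⊆ Icc 1 ((p - 1) / 2) →
        ψ p * ((A.card : ℝ) ^ 2 * Real.log p) ≤ p → ∀ (c : ℕ → ℤ) (w y : K), Tor w →
          ∏ a ∈ A, (1 - ζ ^ a) ^ (c a) = w * y ^ p → ∀ a ∈ A, (p : ℤ) ∣ c a := by
  set ψ' : ℕ → ℝ := fun p => if 1 < ψ p then ψ p else -1 with hψ'
  have h0 : Tendsto ψ' atTop atTop := by
    refine hψ.congr' ?_
    filter_upwards [hψ.eventually_gt_atTop 1] with p hp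
    rw [hψ']
    simp only [if_pos hp]
  refine AlmostAll.mono
    (Pool.Agent.Results.MP_a3a416_nt.SparseIrregular.result 1 one_pos ψ' h0) ?_
  intro p hpp hirr K _ _ _ ζ hζ A hA hcard c w y hw hc
  have hp : Fact p.Prime := ⟨hpp⟩
  have hp1 : (1 : ℝ) < p := by exact_mod_cast hpp.one_lt
  have hlog : 0 < Real.log p := Real.log_pos hp1
  have hψ1 : 1 < ψ p := by
    by_contra hcon
    have h1 := hirr 1
    have h2 : ψ' p = -1 := by rw [hψ']; simp only [if_neg hcon]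
    rw [h2] at h1
    have h3 : (0 : ℝ) < (((1 : ℕ) : ℝ) ^ 2 * Real.log p / p) ^ ((1 : ℝ) + 1) := by
      refine Real.rpow_pos_of_pos ?_ _
      positivity
    have h4 : (0 : ℝ) ≤ (irregularCount p 1 : ℝ) := Nat.cast_nonneg _
    linarith
  have hψp : ψ' p = ψ p := by rw [hψ']; simp only [if_pos hψ1]
  have h1 := hirr A.card
  rw [hψp] at h1
  set x : ℝ := (A.card : ℝ) ^ 2 * Real.log p / p with hx
  have hx0 : 0 ≤ x := by positivity
  have hx1 : ψ p * x ≤ 1 := by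
    rw [hx, ← mul_div_assoc, div_le_one (by linarith)]
    exact hcard
  have h2 : ψ p * x ^ ((1 : ℝ) + 1) < 1 := by
    have h3 : x ^ ((1 : ℝ) + 1) = x * x := by
      rw [show (1 : ℝ) + 1 = ((2 : ℕ) : ℝ) by norm_num, Real.rpow_natCast]; ring
    rw [h3, ← mul_assoc]
    rcases eq_or_lt_of_le hx0 with h4 | h4
    · rw [← h4]; norm_num
    · have h5 : x < 1 := by nlinarith
      nlinarith
  have h3 : irregularCount p A.card = 0 := by
    have h4 : (irregularCount p A.card : ℝ) < 1 := lt_of_le_of_lt h1 h2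
    have h5 : irregularCount p A.card < 1 := by exact_mod_cast h4
    omega
  have h4 := card_irr' p K ζ hζ A hA
  rw [h3, pow_zero] at h4
  exact int_of_card hζ hA h4 c w y hw hc

/-- THE RANK AND INDEPENDENCE, for almost all primes -/
theorem almost_both (η : ℝ) (hη : 0 < η) (ψ : ℕ → ℝ) (hψ : Tendsto ψ atTop atTop) :
    AlmostAll fun p => ∀ (K : Type) [Field K] [CharZero K] [IsCyclotomicExtension {p} ℚ K]
      (ζ : K), IsPrimitiveRoot ζ p → ∀ A : Finset ℕ, A ⊆ Icc 1 ((p - 1) / 2) →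
        (Nat.card (Rel p ζ A) : ℝ) ≤
            (p : ℝ) ^ (ψ p * ((A.card : ℝ) ^ 2 * Real.log p / p) ^ (1 + η)) ∧
          (ψ p * ((A.card : ℝ) ^ 2 * Real.log p / p) ^ (1 + η) < 1 →
            ∀ (c : ℕ → ℤ) (w y : K), Tor w →
              ∏ a ∈ A, (1 - ζ ^ a) ^ (c a) = w * y ^ p → ∀ a ∈ A, (p : ℤ) ∣ c a) := by
  refine AlmostAll.mono (Pool.Agent.Results.MP_a3a416_nt.SparseIrregular.result η hη ψ hψ) ?_
  intro p hpp hirr K _ _ _ ζ hζ A hA
  have hp : Fact p.Prime := ⟨hpp⟩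
  have h1 := card_irr' p K ζ hζ A hA
  have h2 := hirr A.card
  have hp1 : (1 : ℝ) ≤ p := by exact_mod_cast hpp.one_lt.le
  refine ⟨?_, fun hlt c w y hw hc => ?_⟩
  · calc (Nat.card (Rel p ζ A) : ℝ) ≤ ((p ^ irregularCount p A.card : ℕ) : ℝ) := by
          exact_mod_cast h1
      _ = (p : ℝ) ^ ((irregularCount p A.card : ℕ) : ℝ) := by
          rw [Nat.cast_pow, Real.rpow_natCast]
      _ ≤ _ := Real.rpow_le_rpow_of_exponent_le hp1 h2
  · have h3 : irregularCount p A.card = 0 := by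
      have h4 : (irregularCount p A.card : ℝ) < 1 := lt_of_le_of_lt h2 hlt
      have h5 : irregularCount p A.card < 1 := by exact_mod_cast h4
      omega
    rw [h3, pow_zero] at h1
    exact int_of_card hζ hA h1 c w y hw hc

end Pool.Agent.K9h94.KV
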